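import Pool.Agent.P8H92.KB.Stm

set_option autoImplicit false

/-!
# Project KB, package MIN: a coupling by minimisation
-/

namespace Pool.Agent.P8H55.KB

open Finset Real Filter Topology
open Pool.Agent.P8H92.KB

section

variable {k : ℕ} {A : Type} [Fintype A] (x : A → EuclideanSpace ℝ (Fin k)) (ν : A → ℝ)

/-- the partition function -/
noncomputable def ZZ (f : A → ℝ) (l : ℝ) : ℝ := ∑ a, ∑ b, cpl x ν l f a b

/-- the mean of the squared norm -/
noncomputable def vv : ℝ := ∑ a, ν a * ‖x a‖ ^ 2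

/-- the functional -/
noncomputable def Psi (s : ℝ) (f : A → ℝ) (l : ℝ) : ℝ :=
  Real.log (ZZ x ν f l) - 2 * ∑ a, ν a * f a - l * (s * vv x ν)

theorem cpl_pos (hν : ∀ a, 0 < ν a) (l : ℝ) (f : A → ℝ) (a b : A) : 0 < cpl x ν l f a b := by
  unfold cpl
  have := hν a
  have := hν b
  positivity

theorem ZZ_pos [Nonempty A] (hν : ∀ a, 0 < ν a) (f : A → ℝ) (l : ℝ) : 0 < ZZ x ν f l :=
  sum_pos (fun a _ => sum_pos (fun b _ => cpl_pos x ν hν l f a b) univ_nonempty) univ_nonempty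

theorem star (h : S_KER) [Nonempty A] (hν : ∀ a, 0 < ν a) (hsum : ∑ a, ν a = 1) {l t : ℝ}
    (hl : 0 ≤ l) (ht0 : 0 ≤ t) (ht1 : t < 1) (f : A → ℝ) :
    2 * ∑ a, ν a * f a + l * t * vv x ν + (k : ℝ) / 2 * Real.log (1 - t ^ 2) ≤
      Real.log (ZZ x ν f l) := by
  have h1 := h k A x (fun a => ν a * rexp (f a)) (fun a => mul_nonneg (hν a).le (Real.exp_pos _).le)
    l t hl ht0 ht1
  have h2 : ∑ a, ∑ b, ν a * rexp (f a) * (ν b * rexp (f b)) * rexp (l * inner ℝ (x a) (x b)) =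
      ZZ x ν f l := by
    unfold ZZ cpl
    refine sum_congr rfl fun a _ => sum_congr rfl fun b _ => ?_
    rw [Real.exp_add, Real.exp_add]
    ring
  rw [h2] at h1
  have h3 : ∑ a, ν a * rexp (f a) * rexp (l * t * ‖x a‖ ^ 2 / 2) =
      ∑ a, ν a * rexp (f a + l * t * ‖x a‖ ^ 2 / 2) :=
    sum_congr rfl fun a _ => by rw [Real.exp_add]; ring
  rw [h3] at h1
  have hJ : rexp (∑ a, ν a * (f a + l * t * ‖x a‖ ^ 2 / 2)) ≤
      ∑ a, ν a * rexp (f a + l * t * ‖x a‖ ^ 2 / 2) := by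
    have := convexOn_exp.map_sum_le (t := univ) (w := ν)
      (p := fun a => f a + l * t * ‖x a‖ ^ 2 / 2) (fun a _ => (hν a).le) hsum
      (fun _ _ => Set.mem_univ _)
    simpa [smul_eq_mul] using this
  have h4 : ∑ a, ν a * (f a + l * t * ‖x a‖ ^ 2 / 2) = ∑ a, ν a * f a + l * t / 2 * vv x ν := by
    unfold vv
    rw [mul_sum, ← sum_add_distrib]
    exact sum_congr rfl fun a _ => by ring
  have ht2 : 0 < 1 - t ^ 2 := by nlinarith
  have h5 : (1 - t ^ 2) ^ ((k : ℝ) / 2) = rexp (Real.log (1 - t ^ 2) * ((k : ℝ) / 2)) :=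
    Real.rpow_def_of_pos ht2 _
  rw [h5] at h1
  have h6 : rexp (2 * ∑ a, ν a * f a + l * t * vv x ν + (k : ℝ) / 2 * Real.log (1 - t ^ 2)) ≤
      ZZ x ν f l := by
    refine le_trans (le_of_eq ?_) (le_trans (mul_le_mul_of_nonneg_right
      (pow_le_pow_left₀ (Real.exp_pos _).le hJ 2) (Real.exp_pos _).le) h1)
    rw [h4, ← Real.exp_nat_mul, ← Real.exp_add]
    congr 1
    push_cast
    ring
  exact (Real.le_log_iff_exp_le (ZZ_pos x ν hν f l)).2 h6

theorem diag (hν : ∀ a, 0 < ν a) {l : ℝ} (hl : 0 ≤ l) (f : A → ℝ) (a : A) :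
    2 * Real.log (ν a) + 2 * f a ≤ Real.log (ZZ x ν f l) := by
  have : Nonempty A := ⟨a⟩
  rw [Real.le_log_iff_exp_le (ZZ_pos x ν hν f l)]
  have h1 : cpl x ν l f a a ≤ ZZ x ν f l := by
    unfold ZZ
    refine le_trans ?_ (single_le_sum (f := fun a => ∑ b, cpl x ν l f a b)
      (fun a _ => sum_nonneg fun b _ => (cpl_pos x ν hν l f a b).le) (mem_univ a))
    exact single_le_sum (f := fun b => cpl x ν l f a b)
      (fun b _ => (cpl_pos x ν hν l f a b).le) (mem_univ a)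
  refine le_trans ?_ h1
  unfold cpl
  have h2 : 0 ≤ l * inner ℝ (x a) (x a) := mul_nonneg hl real_inner_self_nonneg
  calc rexp (2 * Real.log (ν a) + 2 * f a) = rexp (Real.log (ν a)) * rexp (Real.log (ν a)) *
        rexp (f a + f a) := by
        rw [← Real.exp_add, ← Real.exp_add]; congr 1; ring
    _ = ν a * ν a * rexp (f a + f a) := by rw [Real.exp_log (hν a)]
    _ ≤ _ := by
        refine mul_le_mul_of_nonneg_left (Real.exp_le_exp.2 (by linarith)) ?_
        have := hν a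
        positivity

theorem cont [Nonempty A] (hν : ∀ a, 0 < ν a) (s : ℝ) :
    Continuous (fun p : (A → ℝ) × ℝ => Psi x ν s p.1 p.2) := by
  have hZ : Continuous (fun p : (A → ℝ) × ℝ => ZZ x ν p.1 p.2) := by
    unfold ZZ cpl
    fun_prop
  unfold Psi
  refine ((hZ.log (fun p => (ZZ_pos x ν hν p.1 p.2).ne')).sub ?_).sub ?_
  · fun_prop
  · fun_prop

theorem shift [Nonempty A] (hν : ∀ a, 0 < ν a) (hsum : ∑ a, ν a = 1) (s c : ℝ) (f : A → ℝ) (l : ℝ) :
    Psi x ν s (fun a => f a - c) l = Psi x ν s f l := by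
  have h1 : ZZ x ν (fun a => f a - c) l = ZZ x ν f l * rexp (-(2 * c)) := by
    unfold ZZ cpl
    rw [sum_mul]
    refine sum_congr rfl fun a _ => ?_
    rw [sum_mul]
    refine sum_congr rfl fun b _ => ?_
    rw [mul_assoc (ν a * ν b), ← Real.exp_add]
    congr 2
    ring
  have h2 : ∑ a, ν a * (f a - c) = ∑ a, ν a * f a - c := by
    have : ∀ a, ν a * (f a - c) = ν a * f a - c * ν a := fun a => by ring
    rw [sum_congr rfl fun a _ => this a, sum_sub_distrib, ← mul_sum, hsum, mul_one]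
  unfold Psi
  rw [h1, h2, Real.log_mul (ZZ_pos x ν hν f l).ne' (Real.exp_pos _).ne', Real.log_exp]
  ring

theorem deriv_dir [Nonempty A] (hν : ∀ a, 0 < ν a) (s : ℝ) (f h : A → ℝ) (l m : ℝ) :
    HasDerivAt (fun t : ℝ => Psi x ν s (fun a => f a + t * h a) (l + t * m))
      ((∑ a, ∑ b, cpl x ν l f a b * (m * inner ℝ (x a) (x b) + h a + h b)) / ZZ x ν f l -
        2 * ∑ a, ν a * h a - m * (s * vv x ν)) 0 := by
  have e1 : ∀ (a b : A) (t : ℝ), cpl x ν (l + t * m) (fun a => f a + t * h a) a b =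
      cpl x ν l f a b * rexp (t * (m * inner ℝ (x a) (x b) + h a + h b)) := by
    intro a b t
    unfold cpl
    rw [mul_assoc (ν a * ν b), ← Real.exp_add]
    congr 2
    ring
  have d1 : ∀ a b : A, HasDerivAt (fun t : ℝ => cpl x ν (l + t * m) (fun a => f a + t * h a) a b)
      (cpl x ν l f a b * (m * inner ℝ (x a) (x b) + h a + h b)) 0 := by
    intro a b
    simp_rw [e1]
    have h1 := (((hasDerivAt_id (0 : ℝ)).mul_const
      (m * inner ℝ (x a) (x b) + h a + h b)).exp).const_mul (cpl x ν l f a b)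
    exact h1.congr_deriv (by simp)
  have d2 : HasDerivAt (fun t : ℝ => ZZ x ν (fun a => f a + t * h a) (l + t * m))
      (∑ a, ∑ b, cpl x ν l f a b * (m * inner ℝ (x a) (x b) + h a + h b)) 0 := by
    unfold ZZ
    exact HasDerivAt.fun_sum fun a _ => HasDerivAt.fun_sum fun b _ => d1 a b
  have d3 := d2.log (ZZ_pos x ν hν _ _).ne'
  have e0 : ZZ x ν (fun a => f a + 0 * h a) (l + 0 * m) = ZZ x ν f l := by simp
  rw [e0] at d3
  have d4 : HasDerivAt (fun t : ℝ => 2 * ∑ a, ν a * (f a + t * h a)) (2 * ∑ a, ν a * h a) 0 := by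
    have e2 : ∀ t : ℝ, 2 * ∑ a, ν a * (f a + t * h a) =
        2 * ∑ a, ν a * f a + t * (2 * ∑ a, ν a * h a) := by
      intro t
      have : ∀ a, ν a * (f a + t * h a) = ν a * f a + t * (ν a * h a) := fun a => by ring
      rw [sum_congr rfl fun a _ => this a, sum_add_distrib, ← mul_sum]
      ring
    simp_rw [e2]
    have h1 := ((hasDerivAt_id (0 : ℝ)).mul_const (2 * ∑ a, ν a * h a)).const_add
      (2 * ∑ a, ν a * f a)
    exact h1.congr_deriv (by simp)
  have d5 : HasDerivAt (fun t : ℝ => (l + t * m) * (s * vv x ν)) (m * (s * vv x ν)) 0 := by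
    have h1 := (((hasDerivAt_id (0 : ℝ)).mul_const m).const_add l).mul_const (s * vv x ν)
    exact h1.congr_deriv (by simp)
  unfold Psi
  exact (d3.sub d4).sub d5

/-- the minimum -/
theorem exists_min (h : S_KER) [Nonempty A] (hν : ∀ a, 0 < ν a) (hsum : ∑ a, ν a = 1)
    (hv : 0 < vv x ν) {s : ℝ} (hs0 : 0 ≤ s) (hs1 : s < 1) :
    ∃ (f : A → ℝ) (l : ℝ), 0 ≤ l ∧ ∀ (g : A → ℝ) (m : ℝ), 0 ≤ m → Psi x ν s f l ≤ Psi x ν s g m := by
  classical
  obtain ⟨t, ht⟩ : ∃ t, t = (1 + s) / 2 := ⟨_, rfl⟩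
  have ht0 : 0 ≤ t := by rw [ht]; linarith
  have ht1 : t < 1 := by rw [ht]; linarith
  have hts : 0 < t - s := by rw [ht]; linarith
  obtain ⟨Λ, hΛ⟩ : ∃ Λ, Λ = |(k : ℝ) / 2 * Real.log (1 - t ^ 2)| / ((t - s) * vv x ν) := ⟨_, rfl⟩
  have hΛ0 : 0 ≤ Λ := by rw [hΛ]; positivity
  obtain ⟨F, hF⟩ : ∃ F, F = Λ * (s * vv x ν) / 2 + ∑ a, |Real.log (ν a)| := ⟨_, rfl⟩
  have hlog0 : 0 ≤ ∑ a, |Real.log (ν a)| := sum_nonneg fun _ _ => abs_nonneg _
  have hF0 : 0 ≤ F := by
    rw [hF]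
    have : 0 ≤ Λ * (s * vv x ν) := by positivity
    linarith
  obtain ⟨F₂, hF₂⟩ : ∃ F₂, F₂ = F * (1 + ∑ a, (ν a)⁻¹) := ⟨_, rfl⟩
  have hinv0 : 0 ≤ ∑ a, (ν a)⁻¹ := sum_nonneg fun a _ => (inv_pos.2 (hν a)).le
  have hFF₂ : F ≤ F₂ := by rw [hF₂]; nlinarith
  -- the a priori bounds
  have hbd : ∀ (f : A → ℝ) (l : ℝ), ∑ a, ν a * f a = 0 → 0 ≤ l → Psi x ν s f l ≤ 0 →
      l ≤ Λ ∧ ∀ a, -F₂ ≤ f a ∧ f a ≤ F₂ := by
    intro f l hf hl hP
    unfold Psi at hP
    rw [hf] at hP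
    have h1 := star x ν h hν hsum hl ht0 ht1 f
    rw [hf] at h1
    have hlΛ : l ≤ Λ := by
      rw [hΛ, le_div_iff₀ (by positivity)]
      have := neg_abs_le ((k : ℝ) / 2 * Real.log (1 - t ^ 2))
      nlinarith
    have hup : ∀ a, f a ≤ F := by
      intro a
      have h2 := diag x ν hν hl f a
      have h3 : -|Real.log (ν a)| ≤ Real.log (ν a) := neg_abs_le _
      have h4 := single_le_sum (f := fun a => |Real.log (ν a)|) (fun _ _ => abs_nonneg _)
        (mem_univ a)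
      have h5 : l * (s * vv x ν) ≤ Λ * (s * vv x ν) :=
        mul_le_mul_of_nonneg_right hlΛ (by positivity)
      rw [hF]
      linarith
    refine ⟨hlΛ, fun a => ⟨?_, (hup a).trans hFF₂⟩⟩
    have h2 : ν a * f a = -∑ b ∈ univ.erase a, ν b * f b := by
      rw [← add_sum_erase _ _ (mem_univ a)] at hf
      linarith
    have h3 : ∑ b ∈ univ.erase a, ν b * f b ≤ F := by
      calc ∑ b ∈ univ.erase a, ν b * f b ≤ ∑ b ∈ univ.erase a, ν b * F :=
            sum_le_sum fun b _ => mul_le_mul_of_nonneg_left (hup b) (hν b).le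
        _ ≤ ∑ b, ν b * F := sum_le_sum_of_subset_of_nonneg (erase_subset _ _)
            fun b _ _ => mul_nonneg (hν b).le hF0
        _ = F := by rw [← sum_mul, hsum, one_mul]
    have h4 : f a = -(∑ b ∈ univ.erase a, ν b * f b) * (ν a)⁻¹ := by
      rw [← h2, mul_comm (ν a), mul_assoc, mul_inv_cancel₀ (hν a).ne', mul_one]
    have h5 := single_le_sum (f := fun a => (ν a)⁻¹) (fun a _ => (inv_pos.2 (hν a)).le) (mem_univ a)
    have h6 := inv_pos.2 (hν a)
    rw [h4, hF₂]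
    have h7 : (∑ b ∈ univ.erase a, ν b * f b) * (ν a)⁻¹ ≤ F * (ν a)⁻¹ :=
      mul_le_mul_of_nonneg_right h3 h6.le
    have h8 : F * (ν a)⁻¹ ≤ F * (1 + ∑ a, (ν a)⁻¹) := mul_le_mul_of_nonneg_left (by linarith) hF0
    linarith
  -- the compact set
  obtain ⟨K, hK⟩ : ∃ K : Set ((A → ℝ) × ℝ), K = (Set.Icc (fun _ => -F₂) (fun _ => F₂) ×ˢ
    Set.Icc 0 Λ) ∩ {p | ∑ a, ν a * p.1 a = 0} := ⟨_, rfl⟩
  have hKc : IsCompact K := by
    rw [hK]
    refine (isCompact_Icc.prod isCompact_Icc).inter_right ?_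
    exact isClosed_eq (by fun_prop) continuous_const
  have hP0 : Psi x ν s (fun _ => 0) 0 = 0 := by
    have : ZZ x ν (fun _ => 0) 0 = 1 := by
      unfold ZZ cpl
      simp only [zero_mul, add_zero, Real.exp_zero, mul_one]
      rw [← Finset.sum_mul_sum, hsum, one_mul]
    unfold Psi
    rw [this]
    simp
  have h0K : ((fun _ => 0, 0) : (A → ℝ) × ℝ) ∈ K := by
    rw [hK]
    refine ⟨⟨⟨fun a => ?_, fun a => ?_⟩, ⟨le_rfl, hΛ0⟩⟩, ?_⟩
    · have : 0 ≤ F₂ := hF0.trans hFF₂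
      simpa using this
    · exact hF0.trans hFF₂
    · simp
  obtain ⟨⟨f, l⟩, hfl, hmin⟩ := hKc.exists_isMinOn ⟨_, h0K⟩ (cont x ν hν s).continuousOn
  have hfl' := hfl
  rw [hK] at hfl'
  obtain ⟨⟨_, ⟨hl0, _⟩⟩, _⟩ := hfl'
  have hmin' : ∀ p ∈ K, Psi x ν s f l ≤ Psi x ν s p.1 p.2 := fun p hp => hmin hp
  have hle0 : Psi x ν s f l ≤ 0 := by
    have := hmin' _ h0K
    rwa [hP0] at this
  refine ⟨f, l, hl0, fun g m hm => ?_⟩
  obtain ⟨c, hc⟩ : ∃ c, c = ∑ a, ν a * g a := ⟨_, rfl⟩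
  rw [← shift x ν hν hsum s c g m]
  have hg : ∑ a, ν a * (g a - c) = 0 := by
    have : ∀ a, ν a * (g a - c) = ν a * g a - c * ν a := fun a => by ring
    rw [sum_congr rfl fun a _ => this a, sum_sub_distrib, ← mul_sum, hsum, mul_one, hc, sub_self]
  by_cases hP : Psi x ν s (fun a => g a - c) m ≤ 0
  · obtain ⟨h1, h2⟩ := hbd _ _ hg hm hP
    refine hmin' (fun a => g a - c, m) ?_
    rw [hK]
    exact ⟨⟨⟨fun a => (h2 a).1, fun a => (h2 a).2⟩, ⟨hm, h1⟩⟩, hg⟩
  · exact hle0.trans (not_le.1 hP).le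

end

theorem min (h : S_KER) : S_MIN := by
  classical
  intro k A _ x ν hν hsum hv s hs0 hs1
  have : Nonempty A := by
    by_contra hne
    rw [not_nonempty_iff] at hne
    simp at hsum
  obtain ⟨f, l, hl, hmin⟩ := exists_min x ν h hν hsum hv hs0 hs1
  have hZ := ZZ_pos x ν hν f l
  obtain ⟨Z, hZd⟩ : ∃ Z, Z = ZZ x ν f l := ⟨_, rfl⟩
  rw [← hZd] at hZ
  have hsym : ∀ a b, cpl x ν l f a b = cpl x ν l f b a := by
    intro a b
    unfold cpl
    rw [real_inner_comm, mul_comm (ν a)]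
    congr 2
    ring
  -- the marginals
  have hmarg : ∀ a, ∑ b, cpl x ν l f a b = Z * ν a := by
    intro a
    have hd := deriv_dir x ν hν s f (fun b => if b = a then 1 else 0) l 0
    have hm0 : IsLocalMin (fun t : ℝ => Psi x ν s (fun b => f b + t * (if b = a then 1 else 0))
        (l + t * 0)) 0 := by
      refine Filter.Eventually.of_forall fun t => ?_
      have := hmin (fun b => f b + t * (if b = a then 1 else 0)) (l + t * 0) (by simpa using hl)
      simpa using this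
    have h0 := hm0.hasDerivAt_eq_zero hd
    rw [← hZd] at h0
    have e1 : ∑ p, ∑ q, cpl x ν l f p q * (0 * inner ℝ (x p) (x q) +
        (if p = a then (1 : ℝ) else 0) + (if q = a then (1 : ℝ) else 0)) =
        2 * ∑ b, cpl x ν l f a b := by
      have e2 : ∀ p q, cpl x ν l f p q * (0 * inner ℝ (x p) (x q) +
          (if p = a then (1 : ℝ) else 0) + (if q = a then (1 : ℝ) else 0)) =
          (if p = a then cpl x ν l f p q else 0) + (if q = a then cpl x ν l f p q else 0) := by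
        intro p q
        split_ifs <;> ring
      simp_rw [e2, sum_add_distrib]
      have e3 : ∑ p, ∑ q, (if p = a then cpl x ν l f p q else 0) = ∑ b, cpl x ν l f a b := by
        rw [sum_comm]
        simp
      have e4 : ∑ p, ∑ q, (if q = a then cpl x ν l f p q else 0) = ∑ b, cpl x ν l f a b := by
        simp only [sum_ite_eq', mem_univ, if_true]
        exact sum_congr rfl fun b _ => hsym b a
      rw [e3, e4]
      ring
    have e5 : ∑ b, ν b * (if b = a then (1 : ℝ) else 0) = ν a := by simp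
    rw [e1, e5] at h0
    have h2 : (2 * ∑ b, cpl x ν l f a b) / Z = 2 * ν a := by linarith
    rw [div_eq_iff hZ.ne'] at h2
    linarith
  -- the direction of `l`
  obtain ⟨E, hE⟩ : ∃ E, E = ∑ a, ∑ b, cpl x ν l f a b * inner ℝ (x a) (x b) := ⟨_, rfl⟩
  have hd := deriv_dir x ν hν s f (fun _ => 0) l 1
  have hd' : (∑ a, ∑ b, cpl x ν l f a b * (1 * inner ℝ (x a) (x b) + 0 + 0)) / ZZ x ν f l -
      2 * ∑ a, ν a * 0 - 1 * (s * vv x ν) = E / Z - s * vv x ν := by
    rw [hE, ← hZd]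
    simp
  rw [hd'] at hd
  have hEs : s * vv x ν ≤ E / Z := by
    have h1 := hd.tendsto_slope_zero_right
    have h2 : 0 ≤ E / Z - s * vv x ν := by
      refine ge_of_tendsto h1 (eventually_nhdsWithin_of_forall fun t ht => ?_)
      have ht' : 0 < t := ht
      rw [smul_eq_mul]
      refine mul_nonneg (inv_pos.2 ht').le (sub_nonneg.2 ?_)
      have := hmin (fun a => f a + (0 + t) * 0) (l + (0 + t) * 1) (by linarith)
      simpa using this
    linarith
  have hlE : l * (E / Z) = l * (s * vv x ν) := by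
    rcases hl.eq_or_lt with h0 | h0
    · rw [← h0]; ring
    · have hm0 : IsLocalMin (fun t : ℝ => Psi x ν s (fun a => f a + t * 0) (l + t * 1)) 0 := by
        have h1 : ∀ᶠ t : ℝ in 𝓝 0, -l < t := lt_mem_nhds (by linarith)
        filter_upwards [h1] with t ht
        have := hmin (fun a => f a + t * 0) (l + t * 1) (by linarith)
        simpa using this
      have h2 := hm0.hasDerivAt_eq_zero hd
      rw [show E / Z = s * vv x ν by linarith]
  -- normalisation
  obtain ⟨f₁, hf₁⟩ : ∃ f₁ : A → ℝ, f₁ = fun a => f a - Real.log Z / 2 := ⟨_, rfl⟩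
  have hc1 : ∀ a b, cpl x ν l f₁ a b = cpl x ν l f a b / Z := by
    intro a b
    rw [hf₁]
    unfold cpl
    simp only
    have e1 : l * inner ℝ (x a) (x b) + (f a - Real.log Z / 2) + (f b - Real.log Z / 2) =
        (l * inner ℝ (x a) (x b) + f a + f b) - Real.log Z := by ring
    rw [e1, Real.exp_sub, Real.exp_log hZ]
    ring
  have hm1 : ∀ a, ∑ b, cpl x ν l f₁ a b = ν a := by
    intro a
    simp_rw [hc1]
    rw [← sum_div, hmarg, mul_div_cancel_left₀ _ hZ.ne']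
  have hm2 : ∀ b, ∑ a, cpl x ν l f₁ a b = ν b := by
    intro b
    rw [← hm1 b]
    refine sum_congr rfl fun a _ => ?_
    rw [hc1, hc1, hsym]
  have hE1 : ∑ a, ∑ b, cpl x ν l f₁ a b * inner ℝ (x a) (x b) = E / Z := by
    rw [hE, sum_div]
    refine sum_congr rfl fun a _ => ?_
    rw [sum_div]
    refine sum_congr rfl fun b _ => ?_
    rw [hc1]
    ring
  refine ⟨l, f₁, hl, hm1, ?_, ?_⟩
  · rw [hE1]
    exact hEs
  · have e1 : ∑ a, ∑ b, cpl x ν l f₁ a b * (l * inner ℝ (x a) (x b) + f₁ a + f₁ b) =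
        l * (E / Z) + 2 * ∑ a, ν a * f₁ a := by
      have e2 : ∀ a b, cpl x ν l f₁ a b * (l * inner ℝ (x a) (x b) + f₁ a + f₁ b) =
          l * (cpl x ν l f₁ a b * inner ℝ (x a) (x b)) + cpl x ν l f₁ a b * f₁ a +
            cpl x ν l f₁ a b * f₁ b := fun a b => by ring
      simp_rw [e2, sum_add_distrib, ← mul_sum]
      rw [hE1]
      have e3 : ∑ a, ∑ b, cpl x ν l f₁ a b * f₁ a = ∑ a, ν a * f₁ a :=
        sum_congr rfl fun a _ => by rw [← sum_mul, hm1]
      have e4 : ∑ a, ∑ b, cpl x ν l f₁ a b * f₁ b = ∑ a, ν a * f₁ a := by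
        rw [sum_comm]
        exact sum_congr rfl fun b _ => by rw [← sum_mul, hm2]
      rw [e3, e4]
      ring
    have e5 : 2 * ∑ a, ν a * f₁ a = 2 * ∑ a, ν a * f a - Real.log Z := by
      have : ∀ a, ν a * f₁ a = ν a * f a - Real.log Z / 2 * ν a := fun a => by rw [hf₁]; ring
      rw [sum_congr rfl fun a _ => this a, sum_sub_distrib, ← mul_sum, hsum]
      ring
    have e6 := star x ν h hν hsum hl hs0 hs1 f
    rw [← hZd] at e6
    rw [e1, hlE, e5]
    linarith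

end Pool.Agent.P8H55.KB
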