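import Pool.Agent.P8H92.KB.Stm

set_option autoImplicit false

/-!
# Project KB, package CHE
-/

namespace Pool.Agent.P8H55.KB

open Finset Real
open Pool.Agent.P8H92.KB

theorem che : S_CHE := by
  classical
  intro J _ p y hp hsum hmean
  obtain ⟨μ, hμ⟩ : ∃ μ, μ = ∑ j, p j * y j := ⟨_, rfl⟩
  rw [← hμ] at hmean
  obtain ⟨Y, hY⟩ : ∃ Y, Y = ∑ j, |y j| + 1 := ⟨_, rfl⟩
  have hY1 : 1 ≤ Y := by
    have : 0 ≤ ∑ j, |y j| := sum_nonneg fun _ _ => abs_nonneg _
    linarith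
  have hyY : ∀ j, |y j| ≤ Y := by
    intro j
    have := single_le_sum (f := fun j => |y j|) (fun _ _ => abs_nonneg _) (mem_univ j)
    linarith
  have hμY : μ ≤ Y := by
    rw [hμ]
    calc ∑ j, p j * y j ≤ ∑ j, p j * Y := sum_le_sum fun j _ =>
          mul_le_mul_of_nonneg_left ((le_abs_self _).trans (hyY j)) (hp j)
      _ = Y := by rw [← sum_mul, hsum, one_mul]
  obtain ⟨h, hh⟩ : ∃ h, h = μ / (2 * Y ^ 2) := ⟨_, rfl⟩
  have hY0 : 0 < Y := by linarith
  have hh0 : 0 < h := by rw [hh]; positivity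
  have hhY : h * Y ≤ 1 := by
    rw [hh, div_mul_eq_mul_div, div_le_one (by positivity)]
    nlinarith
  have hhY2 : h * Y ^ 2 = μ / 2 := by
    rw [hh]
    field_simp
  obtain ⟨φ, hφ⟩ : ∃ φ, φ = ∑ j, p j * rexp (-(h * y j)) := ⟨_, rfl⟩
  have hφ1 : φ < 1 := by
    have h1 : ∀ j, p j * rexp (-(h * y j)) ≤ p j * (1 - h * y j + h ^ 2 * Y ^ 2) := by
      intro j
      refine mul_le_mul_of_nonneg_left ?_ (hp j)
      have h2 : |-(h * y j)| ≤ 1 := by
        rw [abs_neg, abs_mul, abs_of_pos hh0]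
        exact (mul_le_mul_of_nonneg_left (hyY j) hh0.le).trans hhY
      have h3 := Real.abs_exp_sub_one_sub_id_le h2
      have h4 := (abs_le.1 h3).2
      have h5 : (-(h * y j)) ^ 2 ≤ h ^ 2 * Y ^ 2 := by
        rw [neg_sq, mul_pow]
        refine mul_le_mul_of_nonneg_left ?_ (by positivity)
        rw [← sq_abs (y j)]
        exact pow_le_pow_left₀ (abs_nonneg _) (hyY j) 2
      linarith
    have h2 : φ ≤ ∑ j, p j * (1 - h * y j + h ^ 2 * Y ^ 2) := by
      rw [hφ]; exact sum_le_sum fun j _ => h1 j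
    have h3 : ∑ j, p j * (1 - h * y j + h ^ 2 * Y ^ 2) = 1 - h * μ + h ^ 2 * Y ^ 2 := by
      have e1 : ∀ j, p j * (1 - h * y j + h ^ 2 * Y ^ 2) =
          (1 + h ^ 2 * Y ^ 2) * p j - h * (p j * y j) := fun j => by ring
      rw [sum_congr rfl fun j _ => e1 j, sum_sub_distrib, ← mul_sum, ← mul_sum, hsum, ← hμ]
      ring
    have h4 : h ^ 2 * Y ^ 2 = h * (μ / 2) := by rw [← hhY2]; ring
    have h5 : 0 < h * μ := by positivity
    rw [h3, h4] at h2
    linarith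
  refine ⟨max φ (1 / 2), lt_of_lt_of_le (by norm_num) (le_max_right _ _),
    max_lt hφ1 (by norm_num), fun m => ?_⟩
  have hφ0 : 0 ≤ φ := by
    rw [hφ]
    exact sum_nonneg fun j _ => mul_nonneg (hp j) (Real.exp_pos _).le
  refine le_trans ?_ (pow_le_pow_left₀ hφ0 (le_max_left _ _) m)
  rw [hφ, Fintype.sum_pow]
  refine sum_le_sum fun w _ => ?_
  have hnn : 0 ≤ ∏ i, p (w i) := prod_nonneg fun i _ => hp _
  rw [prod_mul_distrib, ← Real.exp_sum]
  split_ifs with hw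
  · refine le_mul_of_one_le_right hnn ?_
    apply Real.one_le_exp
    rw [sum_neg_distrib, ← mul_sum]
    nlinarith
  · exact mul_nonneg hnn (Real.exp_pos _).le

end Pool.Agent.P8H55.KB
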